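import Mathlib

/-!
# Random directions: few short cycles
-/

namespace Pool.Agent.Lib.MP_1818ed_co.HatG

open Finset

/-- `y` lies on the line through `x` with slope `a x` -/
def Edge {F K : Type*} [Field F] [AddCommGroup K] [Module F K] (a : F × K → K) (x y : F × K) :
    Prop :=
  x.1 ≠ y.1 ∧ y.2 - x.2 = (y.1 - x.1) • a x

section

variable {F K : Type} [Field F] [AddCommGroup K] [Module F K]

theorem Edge.slope {a : F × K → K} {x y : F × K} (h : Edge a x y) :
    a x = (y.1 - x.1)⁻¹ • (y.2 - x.2) := by
  rw [h.2, smul_smul, inv_mul_cancel₀ (sub_ne_zero.2 h.1.symm), one_smul]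

variable {m : ℕ} [NeZero m]

/-- orientation pattern of a cycle -/
def Ori (s : ZMod m → Bool) (a : F × K → K) (x : ZMod m → F × K) : Prop :=
  ∀ i, if s i then Edge a (x i) (x (i + 1)) else Edge a (x (i + 1)) (x i)

omit [NeZero m] in
theorem Ori.out {s : ZMod m → Bool} {a : F × K → K} {x : ZMod m → F × K} (h : Ori s a x)
    (i : ZMod m) (hi : s i = true) : Edge a (x i) (x (i + 1)) := by
  have h1 := h i
  rw [if_pos hi] at h1
  exact h1

omit [NeZero m] in
theorem Ori.back {s : ZMod m → Bool} {a : F × K → K} {x : ZMod m → F × K} (h : Ori s a x)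
    (i : ZMod m) (hi : s (i - 1) = false) : Edge a (x i) (x (i - 1)) := by
  have h1 := h (i - 1)
  rw [hi, sub_add_cancel] at h1
  simpa using h1

/-- the sources -/
def src (s : ZMod m → Bool) : Finset (ZMod m) := univ.filter fun i => s i = true ∧ s (i - 1) = false

/-- the sinks -/
def snk (s : ZMod m → Bool) : Finset (ZMod m) := univ.filter fun i => s i = false ∧ s (i - 1) = true

theorem card_src_eq (s : ZMod m → Bool) : (src s).card = (snk s).card := by
  have h1 : (univ.filter fun i : ZMod m => s i = true).card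
      = (univ.filter fun i : ZMod m => s (i - 1) = true).card := by
    refine card_bij (fun i _ => i + 1) ?_ ?_ ?_
    · intro i hi
      rw [mem_filter] at hi ⊢
      exact ⟨mem_univ _, by rw [add_sub_cancel_right]; exact hi.2⟩
    · intro i _ j _ hij
      exact add_right_cancel hij
    · intro i hi
      rw [mem_filter] at hi
      exact ⟨i - 1, mem_filter.2 ⟨mem_univ _, hi.2⟩, sub_add_cancel _ _⟩
  have h2 : (univ.filter fun i : ZMod m => s i = true).card
      = (src s).card + (univ.filter fun i : ZMod m => s i = true ∧ s (i - 1) = true).card := by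
    rw [src, ← card_union_of_disjoint]
    · congr 1
      ext i
      simp only [mem_filter, mem_univ, true_and, mem_union]
      cases s i <;> cases s (i - 1) <;> simp
    · rw [disjoint_filter]
      intro i _ h1 h2
      rw [h1.2] at h2
      exact absurd h2.2 (by simp)
  have h3 : (univ.filter fun i : ZMod m => s (i - 1) = true).card
      = (snk s).card + (univ.filter fun i : ZMod m => s i = true ∧ s (i - 1) = true).card := by
    rw [snk, ← card_union_of_disjoint]
    · congr 1
      ext i
      simp only [mem_filter, mem_univ, true_and, mem_union]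
      cases s i <;> cases s (i - 1) <;> simp
    · rw [disjoint_filter]
      intro i _ h1 h2
      rw [h1.1] at h2
      exact absurd h2.1 (by simp)
  omega

/-- the prescribed slope at a vertex that is not a sink -/
def presc (s : ZMod m → Bool) (x : ZMod m → F × K) (i : ZMod m) : K :=
  if s i = true then ((x (i + 1)).1 - (x i).1)⁻¹ • ((x (i + 1)).2 - (x i).2)
  else ((x (i - 1)).1 - (x i).1)⁻¹ • ((x (i - 1)).2 - (x i).2)

theorem Ori.presc {s : ZMod m → Bool} {a : F × K → K} {x : ZMod m → F × K} (h : Ori s a x)
    (i : ZMod m) (hi : i ∉ snk s) : a (x i) = presc s x i := by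
  rw [HatG.presc]
  by_cases h1 : s i = true
  · rw [if_pos h1]
    exact (h.out i h1).slope
  · rw [if_neg h1]
    have h2 : s i = false := by simpa using h1
    have h3 : s (i - 1) = false := by
      by_contra h4
      exact hi (mem_filter.2 ⟨mem_univ _, h2, by simpa using h4⟩)
    exact (h.back i h3).slope

/-- a source is determined by its neighbours and its own first coordinate -/
theorem Ori.source {s : ZMod m → Bool} {a : F × K → K} {x : ZMod m → F × K} (h : Ori s a x)
    (hx : Function.Injective x) (hm : 3 ≤ m) (i : ZMod m) (hi : i ∈ src s) :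
    (x i).2 = (x (i + 1)).2 - ((x (i + 1)).1 - (x i).1) •
      (((x (i + 1)).1 - (x (i - 1)).1)⁻¹ • ((x (i + 1)).2 - (x (i - 1)).2)) := by
  rw [src, mem_filter] at hi
  have h1 := h.out i hi.2.1
  have h2 := h.back i hi.2.2
  have h3 : (x (i + 1)).2 - (x (i - 1)).2 = ((x (i + 1)).1 - (x (i - 1)).1) • a (x i) := by
    have e1 := h1.2
    have e2 := h2.2
    calc (x (i + 1)).2 - (x (i - 1)).2
        = ((x (i + 1)).2 - (x i).2) - ((x (i - 1)).2 - (x i).2) := by abel
      _ = ((x (i + 1)).1 - (x (i - 1)).1) • a (x i) := by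
          rw [e1, e2, ← sub_smul]
          congr 1
          ring
  have h4 : (x (i + 1)).1 ≠ (x (i - 1)).1 := by
    intro h5
    rw [h5, sub_self, zero_smul] at h3
    have h6 : x (i + 1) = x (i - 1) := Prod.ext h5 (sub_eq_zero.1 h3)
    have h7 := hx h6
    have h8 : ((2 : ℕ) : ZMod m) = 0 := by
      have : (i + 1) - (i - 1) = 0 := sub_eq_zero.2 h7
      push_cast
      linear_combination this
    rw [ZMod.natCast_eq_zero_iff] at h8
    exact absurd (Nat.le_of_dvd (by norm_num) h8) (by omega)
  rw [h3, smul_smul (((x (i + 1)).1 - (x (i - 1)).1)⁻¹),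
    inv_mul_cancel₀ (sub_ne_zero.2 h4), one_smul, ← h1.2]
  abel

variable [Fintype F] [Fintype K] [DecidableEq F] [DecidableEq K]

open Classical in
theorem card_slopes (s : ZMod m → Bool) (x : ZMod m → F × K) (hx : Function.Injective x) :
    (univ.filter fun a : F × K → K => Ori s a x).card
      ≤ Fintype.card K ^ (Fintype.card (F × K) - (m - (snk s).card)) := by
  let J : Finset (F × K) := (univ \ snk s).image x
  have hJ : J.card = m - (snk s).card := by
    rw [card_image_of_injective _ hx, card_sdiff_of_subset (subset_univ _), card_univ, ZMod.card]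
  have h1 : Fintype.card ({z : F × K // z ∉ J} → K)
      = Fintype.card K ^ (Fintype.card (F × K) - (m - (snk s).card)) := by
    rw [Fintype.card_pi, prod_const, card_univ, Fintype.card_subtype_compl, Fintype.card_coe, hJ]
  rw [← h1, ← Fintype.card_coe]
  refine Fintype.card_le_of_injective (fun a z => a.1 z.1) ?_
  intro a a' haa
  apply Subtype.ext
  funext z
  by_cases hz : z ∈ J
  · obtain ⟨i, hi, rfl⟩ := mem_image.1 hz
    rw [mem_sdiff] at hi
    have e1 := (mem_filter.1 a.2).2
    have e2 := (mem_filter.1 a'.2).2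
    rw [e1.presc i hi.2, e2.presc i hi.2]
  · exact congrFun haa ⟨z, hz⟩

/-- the consistent positions -/
def Cons (s : ZMod m → Bool) (x : ZMod m → F × K) : Prop :=
  Function.Injective x ∧ ∃ a, Ori s a x

omit [Fintype F] [Fintype K] [DecidableEq F] [DecidableEq K] in
theorem Cons.ext (hm : 3 ≤ m) {s : ZMod m → Bool} {x x' : ZMod m → F × K} (h : Cons s x)
    (h' : Cons s x') (h1 : ∀ i, (x i).1 = (x' i).1) (h2 : ∀ i, i ∉ src s → (x i).2 = (x' i).2) :
    x = x' := by
  obtain ⟨hi, a, ha⟩ := h
  obtain ⟨hi', a', ha'⟩ := h'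
  funext i
  refine Prod.ext (h1 i) ?_
  by_cases hs : i ∈ src s
  · have e1 : i + 1 ∉ src s := by
      intro h
      rw [src, mem_filter] at h hs
      rw [add_sub_cancel_right, hs.2.1] at h
      exact absurd h.2.2 (by simp)
    have e2 : i - 1 ∉ src s := by
      intro h
      rw [src, mem_filter] at h hs
      rw [hs.2.2] at h
      exact absurd h.2.1 (by simp)
    rw [ha.source hi hm i hs, ha'.source hi' hm i hs, h1, h1, h1, h2 _ e1, h2 _ e2]
  · exact h2 i hs

open Classical in
theorem card_cons (hm : 3 ≤ m) (s : ZMod m → Bool) :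
    (univ.filter fun x : ZMod m → F × K => Cons s x).card
      ≤ Fintype.card F ^ m * Fintype.card K ^ (m - (src s).card) := by
  have h1 : Fintype.card ((ZMod m → F) × ({i : ZMod m // i ∉ src s} → K))
      = Fintype.card F ^ m * Fintype.card K ^ (m - (src s).card) := by
    rw [Fintype.card_prod, Fintype.card_pi, prod_const, card_univ, ZMod.card, Fintype.card_pi,
      prod_const, card_univ, Fintype.card_subtype_compl, Fintype.card_coe, ZMod.card]
  rw [← h1, ← Fintype.card_coe]
  refine Fintype.card_le_of_injective (fun x => (fun i => (x.1 i).1, fun i => (x.1 i.1).2)) ?_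
  intro x x' hxx
  apply Subtype.ext
  have e1 := (mem_filter.1 x.2).2
  have e2 := (mem_filter.1 x'.2).2
  rw [Prod.mk.injEq] at hxx
  exact e1.ext hm e2 (fun i => congrFun hxx.1 i) (fun i hi => congrFun hxx.2 ⟨i, hi⟩)

open Classical in
/-- the number of pairs (slopes, oriented cycle) -/
theorem card_pairs (hm : 3 ≤ m) (s : ZMod m → Bool) :
    (univ.filter fun z : (F × K → K) × (ZMod m → F × K) =>
      Function.Injective z.2 ∧ Ori s z.1 z.2).card
      ≤ Fintype.card F ^ m * Fintype.card K ^ Fintype.card (F × K) := by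
  set B := univ.filter fun z : (F × K → K) × (ZMod m → F × K) =>
      Function.Injective z.2 ∧ Ori s z.1 z.2 with hB
  have hmap : ∀ z ∈ B, z.2 ∈ univ.filter fun x : ZMod m → F × K => Cons s x := by
    intro z hz
    rw [hB, mem_filter] at hz
    exact mem_filter.2 ⟨mem_univ _, hz.2.1, z.1, hz.2.2⟩
  have h1 := card_eq_sum_card_fiberwise hmap
  rcases (univ.filter fun x : ZMod m → F × K => Cons s x).eq_empty_or_nonempty with h0 | ⟨x0, hx0⟩
  · rw [h0, sum_empty] at h1
    rw [h1]
    exact Nat.zero_le _
  have hmn : m ≤ Fintype.card (F × K) := by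
    have := Fintype.card_le_of_injective _ (mem_filter.1 hx0).2.1
    rwa [ZMod.card] at this
  have h2 : ∀ x ∈ univ.filter fun x : ZMod m → F × K => Cons s x,
      (B.filter fun z => z.2 = x).card
        ≤ Fintype.card K ^ (Fintype.card (F × K) - (m - (snk s).card)) := by
    intro x hx
    refine le_trans ?_ (card_slopes s x (mem_filter.1 hx).2.1)
    refine card_le_card_of_injOn Prod.fst ?_ ?_
    · intro z hz
      have hz' := mem_filter.1 (mem_coe.1 hz)
      have hz2 := (mem_filter.1 (hB ▸ hz'.1)).2
      rw [hz'.2] at hz2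
      exact mem_coe.2 (mem_filter.2 ⟨mem_univ _, hz2.2⟩)
    · intro z hz z' hz' hzz
      have e1 := (mem_filter.1 (mem_coe.1 hz)).2
      have e2 := (mem_filter.1 (mem_coe.1 hz')).2
      exact Prod.ext hzz (e1.trans e2.symm)
  rw [h1]
  refine (sum_le_sum h2).trans ?_
  rw [sum_const, smul_eq_mul]
  refine (Nat.mul_le_mul_right _ (card_cons hm s)).trans ?_
  rw [mul_assoc, ← pow_add]
  refine Nat.mul_le_mul_left _ (le_of_eq ?_)
  congr 1
  have h3 := card_src_eq s
  have h4 : (src s).card ≤ m := by
    refine (card_le_univ _).trans ?_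
    rw [ZMod.card]
  omega

end

end Pool.Agent.Lib.MP_1818ed_co.HatG
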