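import Mathlib

/-!
# Linear strategies in the hat guessing game
-/

namespace Pool.Agent.Lib.MP_1818ed_co.HatG

open Finset

/-- The players on the graph `G` win the hat guessing game with `q` colours. -/
def Wins {V : Type*} (G : SimpleGraph V) (q : ℕ) : Prop :=
  ∃ f : V → (V → Fin q) → Fin q,
    (∀ (v : V) (c c' : V → Fin q), (∀ u : V, G.Adj v u → c u = c' u) → f v c = f v c') ∧
    ∀ c : V → Fin q, ∃ v : V, f v c = c v

section

variable {V K : Type*} [Fintype V] [DecidableEq V] [Field K] [Fintype K] [DecidableEq K]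

omit [DecidableEq V] [DecidableEq K] in
theorem card_range_mulVecLin (M : Matrix V V K) :
    Nat.card (LinearMap.range M.mulVecLin) = Fintype.card K ^ M.rank := by
  rw [Module.natCard_eq_pow_finrank (K := K), Nat.card_eq_fintype_card]
  rfl

/-- a shift `b` that meets every vector of the image of `M` on `X` -/
theorem exists_shift (X : Finset V) (M : Matrix V V K)
    (hc : Fintype.card K ^ M.rank * (Fintype.card K - 1) ^ X.card < Fintype.card K ^ X.card) :
    ∃ b : X → K, ∀ c : V → K, ∃ v : X, (M.mulVec c) v = b v := by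
  classical
  by_contra hcon
  push Not at hcon
  let Y : Type _ := LinearMap.range M.mulVecLin
  haveI : Fintype Y := Fintype.ofFinite _
  have h1 : (univ : Finset (X → K)) ⊆
      (univ : Finset Y).biUnion fun y => Fintype.piFinset fun v : X => univ.erase (y.1 v) := by
    intro b _
    obtain ⟨c, hcb⟩ := hcon b
    rw [mem_biUnion]
    refine ⟨⟨M.mulVec c, ⟨c, rfl⟩⟩, mem_univ _, ?_⟩
    rw [Fintype.mem_piFinset]
    intro v
    rw [mem_erase]
    exact ⟨fun h => hcb v h.symm, mem_univ _⟩
  have h2 := card_le_card h1
  have h3 : ∀ y : Y, (Fintype.piFinset fun v : X => (univ : Finset K).erase (y.1 v)).card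
      = (Fintype.card K - 1) ^ X.card := by
    intro y
    rw [Fintype.card_piFinset]
    simp
  have h4 : Fintype.card Y = Fintype.card K ^ M.rank := by
    rw [← Nat.card_eq_fintype_card]
    exact card_range_mulVecLin M
  have h5 := h2.trans card_biUnion_le
  rw [sum_congr rfl fun y _ => h3 y, sum_const, card_univ, card_univ, h4, smul_eq_mul] at h5
  rw [Fintype.card_pi, prod_const, card_univ, Fintype.card_coe] at h5
  omega

theorem wins_of_linear (G : SimpleGraph V) (X : Finset V) (M : Matrix V V K)
    (hd : ∀ v ∈ X, M v v = 1)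
    (hs : ∀ v ∈ X, ∀ u ∈ X, u ≠ v → M v u ≠ 0 → G.Adj v u)
    (hc : Fintype.card K ^ M.rank * (Fintype.card K - 1) ^ X.card < Fintype.card K ^ X.card) :
    Wins G (Fintype.card K) := by
  classical
  obtain ⟨b, hb⟩ := exists_shift X M hc
  let e : K ≃ Fin (Fintype.card K) := Fintype.equivFin K
  refine ⟨fun v c => if h : v ∈ X then
    e (b ⟨v, h⟩ - ∑ u ∈ X.erase v, M v u * e.symm (c u)) else e 0, ?_, ?_⟩
  · intro v c c' hcc
    by_cases h : v ∈ X
    · simp only [dif_pos h]
      congr 2
      refine sum_congr rfl fun u hu => ?_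
      rw [mem_erase] at hu
      by_cases h0 : M v u = 0
      · rw [h0, zero_mul, zero_mul]
      · rw [hcc u (hs v h u hu.2 hu.1 h0)]
    · simp only [dif_neg h]
  · intro c
    obtain ⟨v, hv⟩ := hb fun u => if u ∈ X then e.symm (c u) else 0
    refine ⟨v, ?_⟩
    simp only [dif_pos v.2]
    rw [← hv]
    have h1 : (M.mulVec fun u => if u ∈ X then e.symm (c u) else 0) v
        = e.symm (c v) + ∑ u ∈ X.erase v, M v u * e.symm (c u) := by
      rw [Matrix.mulVec, dotProduct]
      rw [← add_sum_erase univ _ (mem_univ (v : V)), hd v v.2, if_pos v.2, one_mul]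
      congr 1
      rw [← sum_subset (s₁ := X.erase (v : V)) (s₂ := univ.erase (v : V))
        (erase_subset_erase _ (subset_univ _))]
      · refine sum_congr rfl fun u hu => ?_
        rw [if_pos (mem_of_mem_erase hu)]
      · intro u hu hu2
        rw [if_neg, mul_zero]
        intro hX
        exact hu2 (mem_erase.2 ⟨ne_of_mem_erase hu, hX⟩)
    rw [h1, add_sub_cancel_right, Equiv.apply_symm_apply]

/-- an independent set has at most `rank M` vertices -/
theorem indep_card_le (X : Finset V) (M : Matrix V V K) (hd : ∀ v ∈ X, M v v = 1)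
    (I : Finset V) (hI : I ⊆ X) (h0 : ∀ v ∈ I, ∀ u ∈ I, u ≠ v → M v u = 0) :
    I.card ≤ M.rank := by
  classical
  have h1 : Nat.card (I → K) ≤ Nat.card (LinearMap.range M.mulVecLin) := by
    refine Nat.card_le_card_of_injective
      (fun c => ⟨M.mulVecLin fun u => if h : u ∈ I then c ⟨u, h⟩ else 0, ⟨_, rfl⟩⟩) ?_
    intro c c' hcc
    have h2 := congrArg Subtype.val hcc
    funext v
    have h3 := congrFun h2 v.1
    have h4 : ∀ c : I → K, (M.mulVecLin fun u => if h : u ∈ I then c ⟨u, h⟩ else 0) v.1 = c v := by
      intro c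
      rw [Matrix.mulVecLin_apply, Matrix.mulVec, dotProduct,
        sum_eq_single_of_mem v.1 (mem_univ _), hd v.1 (hI v.2), one_mul, dif_pos v.2]
      intro u _ hu
      by_cases hu2 : u ∈ I
      · rw [h0 v.1 v.2 u hu2 hu, zero_mul]
      · rw [dif_neg hu2, mul_zero]
    simp only at h3
    rw [h4, h4] at h3
    exact h3
  rw [card_range_mulVecLin, Nat.card_eq_fintype_card, Fintype.card_pi, prod_const, card_univ,
    Fintype.card_coe] at h1
  exact (Nat.pow_le_pow_iff_right Fintype.one_lt_card).1 h1

end

/-- greedy colouring -/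
theorem colorable_of_degree {V : Type*} [Fintype V] [DecidableEq V] (G : SimpleGraph V)
    (D : ℕ) (hD : ∀ v, Nat.card {u // G.Adj v u} ≤ D) : G.Colorable (D + 1) := by
  classical
  have key : ∀ S : Finset V, ∃ f : V → Fin (D + 1), ∀ u ∈ S, ∀ v ∈ S, G.Adj u v → f u ≠ f v := by
    intro S
    induction S using Finset.induction_on with
    | empty => exact ⟨fun _ => 0, fun u hu => absurd hu (notMem_empty u)⟩
    | insert w S hw ih =>
      obtain ⟨f, hf⟩ := ih
      obtain ⟨a, ha⟩ : ∃ a : Fin (D + 1), ∀ u, G.Adj w u → f u ≠ a := by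
        by_contra hcon
        push Not at hcon
        choose g hg1 hg2 using hcon
        have h1 : Nat.card (Fin (D + 1)) ≤ Nat.card {u // G.Adj w u} := by
          refine Nat.card_le_card_of_injective (fun a => ⟨g a, hg1 a⟩) ?_
          intro a a' haa
          have h2 := congrArg Subtype.val haa
          simp only at h2
          rw [← hg2 a, ← hg2 a', h2]
        rw [Nat.card_eq_fintype_card, Fintype.card_fin] at h1
        have := hD w
        omega
      refine ⟨fun v => if v = w then a else f v, ?_⟩
      intro u hu v hv huv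
      rw [mem_insert] at hu hv
      change (if u = w then a else f u) ≠ (if v = w then a else f v)
      by_cases h1 : u = w
      · by_cases h2 : v = w
        · exact absurd huv (by rw [h1, h2]; exact G.loopless.irrefl w)
        · rw [if_pos h1, if_neg h2]
          rw [h1] at huv
          exact (ha v huv).symm
      · by_cases h2 : v = w
        · rw [if_neg h1, if_pos h2]
          rw [h2] at huv
          exact ha u huv.symm
        · rw [if_neg h1, if_neg h2]
          exact hf u (hu.resolve_left h1) v (hv.resolve_left h2) huv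
  obtain ⟨f, hf⟩ := key univ
  exact ⟨SimpleGraph.Coloring.mk f fun {u v} huv => hf u (mem_univ _) v (mem_univ _) huv⟩

end Pool.Agent.Lib.MP_1818ed_co.HatG
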