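import Mathlib

/-!
# Monomials with a zero digit are orthogonal to all lines
-/

namespace Pool.Agent.Lib.MP_1818ed_co.HatG

open Finset Polynomial

theorem sum_eval_eq_zero {F : Type*} [Field F] [Fintype F] (P : F[X])
    (hP : P.natDegree < Fintype.card F - 1) : ∑ t : F, P.eval t = 0 := by
  have h1 : ∀ t : F, P.eval t = ∑ i ∈ range (Fintype.card F - 1), P.coeff i * t ^ i := fun t =>
    eval_eq_sum_range' hP t
  simp only [h1]
  rw [sum_comm]
  refine sum_eq_zero fun i hi => ?_
  rw [← mul_sum, FiniteField.sum_pow_lt_card_sub_one F i (mem_range.1 hi), mul_zero]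

theorem sum_line_low {p h k : ℕ} [Fact p.Prime] (hkp : k ≤ p) (hh : 0 < h)
    {F : Type*} [Field F] [Fintype F] (hF : Fintype.card F = p ^ h)
    (E : Fin k → ℕ) (hE : ∀ i, E i < p ^ (h - 1)) (x d : Fin k → F) :
    ∑ t : F, ∏ i, (x i + t * d i) ^ E i = 0 := by
  have h1 : ∀ t : F, ∏ i, (x i + t * d i) ^ E i
      = (∏ i, (C (x i) + X * C (d i)) ^ E i : F[X]).eval t := by
    intro t
    rw [eval_prod]
    refine prod_congr rfl fun i _ => ?_
    rw [eval_pow, eval_add, eval_C, eval_mul, eval_X, eval_C]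
  simp only [h1]
  refine sum_eval_eq_zero _ ?_
  have h2 : (∏ i, (C (x i) + X * C (d i)) ^ E i : F[X]).natDegree ≤ k * (p ^ (h - 1) - 1) := by
    refine (natDegree_prod_le _ _).trans ?_
    have h3 : ∀ i ∈ (univ : Finset (Fin k)),
        ((C (x i) + X * C (d i)) ^ E i : F[X]).natDegree ≤ p ^ (h - 1) - 1 := by
      intro i _
      have h4 : (C (x i) + X * C (d i) : F[X]).natDegree ≤ 1 := by
        refine natDegree_add_le_of_degree_le ?_ ?_
        · rw [natDegree_C]
          exact Nat.zero_le _
        · exact natDegree_mul_C_le _ _ |>.trans natDegree_X_le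
      have h5 := natDegree_pow_le_of_le (E i) h4
      have h6 := hE i
      omega
    refine (sum_le_sum h3).trans ?_
    rw [sum_const, card_univ, Fintype.card_fin, smul_eq_mul]
  have hp : 2 ≤ p := (Fact.out : p.Prime).two_le
  have h3 : p ^ h = p * p ^ (h - 1) := by
    rw [← pow_succ']
    congr 1
    omega
  have h4 : 1 ≤ p ^ (h - 1) := Nat.one_le_pow _ _ (by omega)
  have h5 : k * (p ^ (h - 1) - 1) ≤ p * (p ^ (h - 1) - 1) := Nat.mul_le_mul_right _ hkp
  have h6 : p * (p ^ (h - 1) - 1) + p = p * p ^ (h - 1) := by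
    rw [← Nat.mul_succ]
    congr 1
    omega
  rw [hF]
  omega

theorem sum_line_eq_zero {p h k : ℕ} [Fact p.Prime] (hkp : k ≤ p)
    {F : Type*} [Field F] [Fintype F] [CharP F p] (hF : Fintype.card F = p ^ h)
    (E : Fin k → ℕ) (j : ℕ) (hj : j < h) (hE : ∀ i, E i < p ^ h)
    (h0 : ∀ i, E i / p ^ j % p = 0) (x d : Fin k → F) :
    ∑ t : F, ∏ i, (x i + t * d i) ^ E i = 0 := by
  have hp : 2 ≤ p := (Fact.out : p.Prime).two_le
  obtain ⟨m, hm⟩ : ∃ m, h = j + 1 + m := ⟨h - (j + 1), by omega⟩
  -- the shifted exponents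
  obtain ⟨E', hE'⟩ : ∃ E' : Fin k → ℕ, ∀ i, E' i = E i % p ^ j * p ^ m + E i / p ^ (j + 1) :=
    ⟨fun i => _, fun i => rfl⟩
  have e1 : ∀ i, E i = E i % p ^ j + p ^ (j + 1) * (E i / p ^ (j + 1)) := by
    intro i
    have a1 := Nat.mod_add_div (E i) (p ^ j)
    have a2 := Nat.mod_add_div (E i / p ^ j) p
    rw [h0 i, zero_add, Nat.div_div_eq_div_mul, ← pow_succ] at a2
    rw [← a2, ← mul_assoc, ← pow_succ] at a1
    exact a1.symm
  have e2 : ∀ i, E' i < p ^ (h - 1) := by
    intro i
    have a1 : E i % p ^ j < p ^ j := Nat.mod_lt _ (by positivity)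
    have a2 : E i / p ^ (j + 1) < p ^ m := by
      rw [Nat.div_lt_iff_lt_mul (by positivity), ← pow_add]
      refine (hE i).trans_le (le_of_eq ?_)
      congr 1
      omega
    have a3 : h - 1 = j + m := by omega
    rw [hE', a3, pow_add p j m]
    calc E i % p ^ j * p ^ m + E i / p ^ (j + 1) < E i % p ^ j * p ^ m + p ^ m := by omega
      _ = (E i % p ^ j + 1) * p ^ m := by ring
      _ ≤ p ^ j * p ^ m := Nat.mul_le_mul_right _ a1
  have e3 : ∀ (y : F) (i : Fin k), (y ^ E i) ^ p ^ m = y ^ E' i := by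
    intro y i
    have a1 : y ^ p ^ h = y := by rw [← hF]; exact FiniteField.pow_card y
    have a2 : E i * p ^ m = E i % p ^ j * p ^ m + p ^ h * (E i / p ^ (j + 1)) := by
      conv_lhs => rw [e1 i]
      rw [hm, pow_add p (j + 1) m]
      ring
    rw [← pow_mul, a2, hE', pow_add y, pow_add y, pow_mul y (p ^ h), a1]
  have e4 : (∑ t : F, ∏ i, (x i + t * d i) ^ E i) ^ p ^ m = 0 := by
    rw [sum_pow_char_pow]
    have a1 : ∀ t : F, (∏ i, (x i + t * d i) ^ E i) ^ p ^ m = ∏ i, (x i + t * d i) ^ E' i := by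
      intro t
      rw [← prod_pow]
      exact prod_congr rfl fun i _ => e3 _ i
    rw [sum_congr rfl fun t _ => a1 t]
    exact sum_line_low hkp (by omega) hF E' e2 x d
  exact pow_eq_zero_iff (by positivity) |>.1 e4

/-- the reduced monomials are linearly independent functions -/
theorem linearIndependent_monomials {k : ℕ} (F : Type) [Field F] [Fintype F] (n : ℕ)
    (hn : n = Fintype.card F) :
    LinearIndependent F fun (E : Fin k → Fin n) (y : Fin k → F) => ∏ i, y i ^ (E i : ℕ) := by
  classical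
  rw [Fintype.linearIndependent_iff]
  intro c hc
  let em : (Fin k → Fin n) → (Fin k →₀ ℕ) := fun E => Finsupp.equivFunOnFinite.symm fun i => (E i : ℕ)
  have hem : Function.Injective em := by
    intro E E' hEE
    have h1 := Finsupp.equivFunOnFinite.symm.injective hEE
    funext i
    exact Fin.ext (congrFun h1 i)
  let P : MvPolynomial (Fin k) F := ∑ E, MvPolynomial.monomial (em E) (c E)
  have hcoeff : ∀ E, P.coeff (em E) = c E := by
    intro E
    rw [MvPolynomial.coeff_sum]
    rw [sum_eq_single_of_mem E (mem_univ _)]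
    · rw [MvPolynomial.coeff_monomial, if_pos rfl]
    · intro E' _ hne
      rw [MvPolynomial.coeff_monomial, if_neg]
      intro h
      exact hne (hem h)
  have hP : P = 0 := by
    refine MvPolynomial.eq_zero_of_eval_eq_zero (σ := Fin k) (K := F) P ?_ ?_
    · intro y
      have h1 := congrFun hc y
      rw [Finset.sum_apply] at h1
      rw [map_sum]
      rw [Pi.zero_apply] at h1
      rw [← h1]
      refine sum_congr rfl fun E _ => ?_
      rw [MvPolynomial.eval_monomial, Finsupp.prod_fintype _ _ (fun i => pow_zero _)]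
      rfl
    · rw [MvPolynomial.mem_restrictDegree]
      intro s hs i
      have h1 := MvPolynomial.support_sum hs
      rw [mem_biUnion] at h1
      obtain ⟨E, _, hE⟩ := h1
      have h2 := MvPolynomial.support_monomial_subset hE
      rw [mem_singleton] at h2
      rw [h2]
      have h3 : em E i = (E i : ℕ) := rfl
      rw [h3, ← hn]
      have := (E i).2
      omega
  intro E
  rw [← hcoeff E, hP, MvPolynomial.coeff_zero]

theorem card_nonzero_digits {p h k : ℕ} (hp : 2 ≤ p) :
    Nat.card {E : Fin k → Fin (p ^ h) // ∀ j : Fin h, ∃ i, (E i : ℕ) / p ^ (j : ℕ) % p ≠ 0}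
      ≤ (p ^ k - 1) ^ h := by
  classical
  have : NeZero p := ⟨by omega⟩
  have h1 : Nat.card (Fin h → {u : Fin k → Fin p // u ≠ 0}) = (p ^ k - 1) ^ h := by
    rw [Nat.card_eq_fintype_card, Fintype.card_pi, prod_const, card_univ, Fintype.card_fin]
    congr 1
    rw [Fintype.card_subtype_compl, Fintype.card_pi, prod_const, card_univ, Fintype.card_fin,
      Fintype.card_fin, Fintype.card_subtype_eq]
  rw [← h1]
  refine Nat.card_le_card_of_injective (fun E j =>
    ⟨fun i => finFunctionFinEquiv.symm (E.1 i) j, ?_⟩) ?_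
  · obtain ⟨i, hi⟩ := E.2 j
    intro h0
    apply hi
    have h2 := congrArg Fin.val (congrFun h0 i)
    rw [finFunctionFinEquiv_symm_apply_val] at h2
    exact h2
  · intro E E' hEE
    apply Subtype.ext
    funext i
    apply finFunctionFinEquiv.symm.injective
    funext j
    exact congrFun (congrArg Subtype.val (congrFun hEE j)) i

/-- the rank of any choice of one line through each point -/
theorem rank_lines_le {p h k : ℕ} [Fact p.Prime] (hkp : k ≤ p)
    {F : Type} [Field F] [Fintype F] [DecidableEq F] [CharP F p] (hF : Fintype.card F = p ^ h)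
    (D : (Fin k → F) → (Fin k → F)) (hD : ∀ x, D x ≠ 0)
    (N : Matrix (Fin k → F) (Fin k → F) F)
    (hN1 : ∀ (x : Fin k → F) (t : F), N x (x + t • D x) = 1) (hN0 : ∀ x y, (∀ t : F, y ≠ x + t • D x) → N x y = 0) :
    N.rank ≤ (p ^ k - 1) ^ h := by
  classical
  have hp : 2 ≤ p := (Fact.out : p.Prime).two_le
  have hsum : ∀ (φ : (Fin k → F) → F) x, N.mulVec φ x = ∑ t : F, φ (x + t • D x) := by
    intro φ x
    have hinj : Function.Injective fun t : F => x + t • D x := by
      intro t t' htt
      have h1 := add_left_cancel htt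
      have h2 : (t - t') • D x = 0 := by rw [sub_smul, sub_eq_zero]; exact h1
      rcases smul_eq_zero.1 h2 with h3 | h3
      · exact sub_eq_zero.1 h3
      · exact absurd h3 (hD x)
    rw [Matrix.mulVec, dotProduct]
    rw [← sum_subset (s₁ := univ.image fun t : F => x + t • D x) (subset_univ _),
      sum_image fun t _ t' _ h => hinj h]
    · refine sum_congr rfl fun t _ => ?_
      rw [hN1, one_mul]
    · intro y _ hy
      rw [hN0, zero_mul]
      intro t ht
      exact hy (mem_image.2 ⟨t, mem_univ _, ht.symm⟩)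
  let good : (Fin k → Fin (p ^ h)) → Prop := fun E =>
    ∃ j : Fin h, ∀ i, (E i : ℕ) / p ^ (j : ℕ) % p = 0
  have hker : ∀ E : {E // good E}, (fun y : Fin k → F => ∏ i, y i ^ (E.1 i : ℕ)) ∈
      LinearMap.ker N.mulVecLin := by
    intro E
    obtain ⟨j, hj⟩ := E.2
    rw [LinearMap.mem_ker, Matrix.mulVecLin_apply]
    funext x
    rw [hsum]
    exact sum_line_eq_zero hkp hF (fun i => (E.1 i : ℕ)) j j.2 (fun i => (E.1 i).2) hj x (D x)
  have hli := linearIndependent_monomials (k := k) F (p ^ h) hF.symm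
  have hli2 : LinearIndependent F fun E : {E // good E} =>
      (⟨fun y : Fin k → F => ∏ i, y i ^ (E.1 i : ℕ), hker E⟩ : LinearMap.ker N.mulVecLin) := by
    have h1 := hli.comp (fun E : {E // good E} => E.1) Subtype.val_injective
    exact LinearIndependent.of_comp (LinearMap.ker N.mulVecLin).subtype h1
  have h1 := hli2.fintype_card_le_finrank
  have h2 := N.mulVecLin.finrank_range_add_finrank_ker
  have h3 : N.rank = Module.finrank F (LinearMap.range N.mulVecLin) := rfl
  rw [← h3, Module.finrank_fintype_fun_eq_card] at h2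
  have h4 : Fintype.card (Fin k → F) = Fintype.card (Fin k → Fin (p ^ h)) := by
    rw [Fintype.card_pi, Fintype.card_pi, Fintype.card_fin, hF]
  have h5 := Fintype.card_subtype_compl (α := Fin k → Fin (p ^ h)) good
  have h6 := Fintype.card_subtype_le (α := Fin k → Fin (p ^ h)) good
  have h7 : Fintype.card {E : Fin k → Fin (p ^ h) // ¬ good E} ≤ (p ^ k - 1) ^ h := by
    refine le_trans (le_of_eq ?_) (card_nonzero_digits (k := k) (h := h) hp)
    rw [Nat.card_eq_fintype_card]
    refine Fintype.card_congr (Equiv.subtypeEquivRight fun E => ?_)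
    simp only [good]
    push Not
    rfl
  omega

end Pool.Agent.Lib.MP_1818ed_co.HatG
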