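import Mathlib

/-!
# The rank of the incidence matrix of points and lines over the field with `p ^ h` elements
-/

namespace Pool.Agent.Lib.MP_1818ed_co.HatG

open Finset

/-- linear independence is preserved by extension of scalars -/
theorem linearIndependent_map {K L ι m : Type*} [Field K] [Field L] [Algebra K L] [Fintype ι]
    (v : ι → m → K) (hv : LinearIndependent K v) :
    LinearIndependent L fun i x => algebraMap K L (v i x) := by
  classical
  rw [Fintype.linearIndependent_iff]
  intro c hc i
  let b := Module.Basis.ofVectorSpace K L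
  have h1 : ∀ β, ∑ i, b.repr (c i) β • v i = 0 := by
    intro β
    funext x
    have h2 := congrArg (fun z => b.repr z β) (congrFun hc x)
    simp only [Finset.sum_apply, Pi.smul_apply, smul_eq_mul, Pi.zero_apply, map_zero,
      Finsupp.coe_zero, map_sum, Finsupp.coe_finsetSum] at h2
    rw [Finset.sum_apply]
    simp only [Pi.smul_apply, smul_eq_mul, Pi.zero_apply]
    rw [← h2]
    refine sum_congr rfl fun i _ => ?_
    rw [mul_comm (c i), ← Algebra.smul_def, map_smul, Finsupp.smul_apply, smul_eq_mul, mul_comm]
  have h3 : b.repr (c i) = 0 := by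
    ext β
    exact (Fintype.linearIndependent_iff.1 hv) _ (h1 β) i
  simpa using h3

/-- the rank does not grow under extension of scalars -/
theorem rank_map_le {K L m n : Type*} [Field K] [Field L] [Algebra K L] [Fintype m] [Fintype n]
    [DecidableEq m] [DecidableEq n] (M : Matrix m n K) :
    (M.map (algebraMap K L)).rank ≤ M.rank := by
  classical
  have hmem : ∀ y, M.col y ∈ LinearMap.range M.mulVecLin := fun y => ⟨Pi.single y 1, by simp⟩
  let e := Module.finBasis K (LinearMap.range M.mulVecLin)
  let U : Matrix m (Fin (Module.finrank K (LinearMap.range M.mulVecLin))) K := fun x a => (e a).1 x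
  let W : Matrix (Fin (Module.finrank K (LinearMap.range M.mulVecLin))) n K := fun a y =>
    e.repr ⟨M.col y, hmem y⟩ a
  have h1 : M = U * W := by
    ext x y
    rw [Matrix.mul_apply]
    have h2 := congrArg (fun z => z.1 x) (e.sum_repr ⟨M.col y, hmem y⟩)
    simp only [Submodule.coe_sum, Submodule.coe_smul, Finset.sum_apply, Pi.smul_apply,
      smul_eq_mul] at h2
    have h3 : M x y = M.col y x := rfl
    rw [h3, ← h2]
    refine sum_congr rfl fun a _ => ?_
    rw [mul_comm]
  have h3 : M.map (algebraMap K L) = U.map (algebraMap K L) * W.map (algebraMap K L) := by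
    rw [← Matrix.map_mul, ← h1]
  rw [h3]
  refine (Matrix.rank_mul_le_left _ _).trans ?_
  refine (Matrix.rank_le_card_width _).trans ?_
  rw [Fintype.card_fin]
  exact le_rfl

theorem rank_le_map {K L m n : Type*} [Field K] [Field L] [Algebra K L] [Fintype m] [Fintype n]
    [DecidableEq m] [DecidableEq n] (M : Matrix m n K) :
    M.rank ≤ (M.map (algebraMap K L)).rank := by
  classical
  obtain ⟨b, hb1, hb2, hb3⟩ := exists_linearIndependent K (Set.range M.col)
  have hfin : b.Finite := (Set.finite_range _).subset hb1
  have : Fintype b := hfin.fintype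
  have h1 : M.rank = Fintype.card b := by
    rw [Matrix.rank_eq_finrank_span_cols, ← hb2, finrank_span_set_eq_card hb3,
      Set.toFinset_card]
  have h2 := linearIndependent_map (L := L) (fun i : b => i.1) hb3
  rw [h1, Matrix.rank_eq_finrank_span_cols, ← finrank_span_eq_card h2]
  refine Submodule.finrank_mono (Submodule.span_mono ?_)
  rintro _ ⟨i, rfl⟩
  obtain ⟨y, hy⟩ := hb1 i.2
  refine ⟨y, ?_⟩
  funext x
  change algebraMap K L (M x y) = algebraMap K L (i.1 x)
  rw [← hy]
  rfl

end Pool.Agent.Lib.MP_1818ed_co.HatG
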