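import Pool.Agent.Lib.MP_1818ed_co.HatG.Gir

/-!
# Selection of the slopes and of the vertex set
-/

namespace Pool.Agent.Lib.MP_1818ed_co.HatG

open Finset Classical

section

variable {F K : Type} [Field F] [AddCommGroup K] [Module F K] [Fintype F] [Fintype K]
  [DecidableEq F] [DecidableEq K]

omit [DecidableEq F] [DecidableEq K] in
theorem outdeg_le (a : F × K → K) (x : F × K) :
    (univ.filter fun y => Edge a x y).card ≤ Fintype.card F := by
  rw [← card_univ (α := F)]
  refine card_le_card_of_injOn Prod.fst (fun _ _ => mem_coe.2 (mem_univ _)) ?_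
  intro y hy y' hy' h
  have e1 := (mem_filter.1 (mem_coe.1 hy)).2.2
  have e2 := (mem_filter.1 (mem_coe.1 hy')).2.2
  refine Prod.ext h ?_
  rw [h, ← e2] at e1
  exact sub_left_injective e1

omit [DecidableEq F] [DecidableEq K] in
theorem card_heavy (a : F × K → K) :
    4 * (univ.filter fun y : F × K =>
      4 * Fintype.card F < (univ.filter fun x => Edge a x y).card).card
      ≤ Fintype.card (F × K) := by
  set W := univ.filter fun y : F × K =>
      4 * Fintype.card F < (univ.filter fun x => Edge a x y).card with hW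
  have h1 : ∑ y ∈ W, 4 * Fintype.card F ≤ ∑ y : F × K, (univ.filter fun x => Edge a x y).card := by
    refine le_trans (sum_le_sum fun y hy => ?_) (sum_le_sum_of_subset (subset_univ W))
    exact (mem_filter.1 hy).2.le
  have h2 : ∑ y : F × K, (univ.filter fun x => Edge a x y).card
      = ∑ x : F × K, (univ.filter fun y => Edge a x y).card := by
    simp only [card_filter]
    exact sum_comm
  have h3 : ∑ x : F × K, (univ.filter fun y => Edge a x y).card
      ≤ Fintype.card (F × K) * Fintype.card F := by
    refine (sum_le_sum fun x _ => outdeg_le a x).trans ?_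
    rw [sum_const, card_univ, smul_eq_mul]
  rw [sum_const, smul_eq_mul] at h1
  have h4 : 4 * W.card * Fintype.card F ≤ Fintype.card (F × K) * Fintype.card F := by
    calc 4 * W.card * Fintype.card F = W.card * (4 * Fintype.card F) := by ring
      _ ≤ _ := h1.trans (h2.le.trans h3)
  exact Nat.le_of_mul_le_mul_right h4 Fintype.card_pos

/-- the starting points of the short cycles -/
noncomputable def bad (g : ℕ) (a : F × K → K) : Finset (F × K) :=
  (range (g - 3)).biUnion fun m =>
    (univ.filter fun z : (ZMod (m + 3) → Bool) × (ZMod (m + 3) → F × K) =>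
      Function.Injective z.2 ∧ Ori z.1 a z.2).image fun z => z.2 0

theorem sum_bad (g : ℕ) :
    ∑ a : F × K → K, (bad g a).card
      ≤ g * (2 * Fintype.card F) ^ g * Fintype.card K ^ Fintype.card (F × K) := by
  have h1 : ∀ a : F × K → K, (bad g a).card ≤ ∑ m ∈ range (g - 3),
      ∑ s : ZMod (m + 3) → Bool, (univ.filter fun x : ZMod (m + 3) → F × K =>
        Function.Injective x ∧ Ori s a x).card := by
    intro a
    rw [bad]
    refine card_biUnion_le.trans (sum_le_sum fun m _ => ?_)
    refine card_image_le.trans (le_of_eq ?_)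
    rw [card_filter, ← univ_product_univ, sum_product]
    refine sum_congr rfl fun s _ => ?_
    rw [card_filter]
  refine (sum_le_sum fun a _ => h1 a).trans ?_
  rw [sum_comm]
  have h2 : ∀ m ∈ range (g - 3), ∑ a : F × K → K, ∑ s : ZMod (m + 3) → Bool,
      (univ.filter fun x : ZMod (m + 3) → F × K => Function.Injective x ∧ Ori s a x).card
      ≤ (2 * Fintype.card F) ^ g * Fintype.card K ^ Fintype.card (F × K) := by
    intro m hm
    rw [mem_range] at hm
    rw [sum_comm]
    have h3 : ∀ s : ZMod (m + 3) → Bool, ∑ a : F × K → K,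
        (univ.filter fun x : ZMod (m + 3) → F × K => Function.Injective x ∧ Ori s a x).card
        ≤ Fintype.card F ^ (m + 3) * Fintype.card K ^ Fintype.card (F × K) := by
      intro s
      refine le_trans (le_of_eq ?_) (card_pairs (m := m + 3) (by omega) s)
      rw [card_filter, ← univ_product_univ, sum_product]
      refine sum_congr rfl fun a _ => ?_
      rw [card_filter]
    refine (sum_le_sum fun s _ => h3 s).trans ?_
    rw [sum_const, card_univ, Fintype.card_pi, prod_const, card_univ, ZMod.card, Fintype.card_bool,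
      smul_eq_mul, ← mul_assoc, ← mul_pow]
    refine Nat.mul_le_mul_right _ (Nat.pow_le_pow_right ?_ (by omega))
    have : 0 < Fintype.card F := Fintype.card_pos
    omega
  refine (sum_le_sum h2).trans ?_
  rw [sum_const, card_range, smul_eq_mul, mul_assoc]
  exact Nat.mul_le_mul_right _ (Nat.sub_le _ _)

theorem exists_selection (g d : ℕ) (hd : g ≤ d) (hK : Fintype.card K = Fintype.card F ^ d)
    (hq : 4 * g * 2 ^ g ≤ Fintype.card F) :
    ∃ (a : F × K → K) (X : Finset (F × K)), Fintype.card (F × K) ≤ 2 * X.card ∧
      (∀ y ∈ X, (univ.filter fun x => Edge a x y).card ≤ 4 * Fintype.card F) ∧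
      ∀ m < g - 3, ∀ (s : ZMod (m + 3) → Bool) (x : ZMod (m + 3) → F × K),
        Function.Injective x → x 0 ∈ X → ¬ Ori s a x := by
  obtain ⟨a, _, ha⟩ := exists_le_of_sum_le (s := (univ : Finset (F × K → K)))
    (f := fun a => (bad g a).card) (g := fun _ => g * (2 * Fintype.card F) ^ g) univ_nonempty (by
      rw [sum_const, card_univ, Fintype.card_pi, prod_const, card_univ, smul_eq_mul,
        mul_comm _ (g * _)]
      exact sum_bad g)
  have hW := card_heavy a
  set W := univ.filter fun y : F × K =>
      4 * Fintype.card F < (univ.filter fun x => Edge a x y).card with hWdef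
  have hZ : 4 * (bad g a).card ≤ Fintype.card (F × K) := by
    have h1 : Fintype.card F ^ g ≤ Fintype.card F ^ d := Nat.pow_le_pow_right Fintype.card_pos hd
    calc 4 * (bad g a).card ≤ 4 * (g * (2 * Fintype.card F) ^ g) := Nat.mul_le_mul_left _ ha
      _ = 4 * g * 2 ^ g * Fintype.card F ^ g := by rw [mul_pow]; ring
      _ ≤ Fintype.card F * Fintype.card F ^ d := Nat.mul_le_mul hq h1
      _ = Fintype.card (F × K) := by rw [Fintype.card_prod, hK]
  refine ⟨a, univ \ (bad g a ∪ W), ?_, ?_, ?_⟩
  · have h1 := card_sdiff_add_card_inter (univ : Finset (F × K)) (bad g a ∪ W)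
    rw [univ_inter, card_univ] at h1
    have h2 := card_union_le (bad g a) W
    omega
  · intro y hy
    rw [mem_sdiff, mem_union, not_or] at hy
    by_contra h
    exact hy.2.2 (mem_filter.2 ⟨mem_univ _, not_le.1 h⟩)
  · intro m hm s x hx h0 hori
    rw [mem_sdiff, mem_union, not_or] at h0
    refine h0.2.1 ?_
    rw [bad, mem_biUnion]
    exact ⟨m, mem_range.2 hm, mem_image.2 ⟨(s, x), mem_filter.2 ⟨mem_univ _, hx, hori⟩, rfl⟩⟩

end

end Pool.Agent.Lib.MP_1818ed_co.HatG
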