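import Pool.Agent.Lib.MP_1818ed_co.HatG.Lin
import Pool.Agent.Lib.MP_1818ed_co.HatG.Rank
import Pool.Agent.Lib.MP_1818ed_co.HatG.Lines
import Pool.Agent.Lib.MP_1818ed_co.HatG.Sel

/-!
# Graphs of large girth and large hat guessing number
-/

namespace Pool.Agent.Lib.MP_1818ed_co.HatG

open Finset Classical

/-- the graph -/
def GG {F K : Type} [Field F] [AddCommGroup K] [Module F K] (a : F × K → K)
    (X : Finset (F × K)) : SimpleGraph (F × K) where
  Adj x y := x ∈ X ∧ y ∈ X ∧ (Edge a x y ∨ Edge a y x)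
  symm := ⟨fun _ _ h => ⟨h.2.1, h.1, h.2.2.symm⟩⟩
  loopless := ⟨fun _ h => by
    rcases h.2.2 with h | h
    · exact h.1 rfl
    · exact h.1 rfl⟩

/-- the matrix -/
noncomputable def MM {F K : Type} [Field F] [AddCommGroup K] [Module F K] (R : Type) [CommRing R]
    (a : F × K → K) : Matrix (F × K) (F × K) R :=
  fun x y => if y = x ∨ Edge a x y then 1 else 0

theorem MM_map {F K : Type} [Field F] [AddCommGroup K] [Module F K] {R S : Type} [CommRing R]
    [CommRing S] (f : R →+* S) (a : F × K → K) : (MM R a).map f = MM S a := by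
  ext x y
  change f (MM R a x y) = MM S a x y
  rw [MM, MM]
  split_ifs
  · exact map_one f
  · exact map_zero f

theorem rank_MM {p h d : ℕ} [Fact p.Prime] (hkp : d + 1 ≤ p) {F : Type} [Field F] [Fintype F]
    [CharP F p] (hF : Fintype.card F = p ^ h) (a : F × (Fin d → F) → (Fin d → F)) :
    (MM F a).rank ≤ (p ^ (d + 1) - 1) ^ h := by
  let e : F × (Fin d → F) ≃ (Fin (d + 1) → F) := Fin.consEquiv fun _ => F
  have he : ∀ z, e z = Fin.cons z.1 z.2 := fun z => rfl
  let N : Matrix (Fin (d + 1) → F) (Fin (d + 1) → F) F := fun x y => MM F a (e.symm x) (e.symm y)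
  have h1 : MM F a = N.submatrix e e := by
    ext x y
    change MM F a x y = MM F a (e.symm (e x)) (e.symm (e y))
    rw [Equiv.symm_apply_apply, Equiv.symm_apply_apply]
  have hline : ∀ (z : F × (Fin d → F)) (t : F),
      e z + t • (Fin.cons 1 (a z) : Fin (d + 1) → F) = e (z.1 + t, z.2 + t • a z) := by
    intro z t
    rw [he, he]
    funext i
    refine Fin.cases ?_ (fun j => ?_) i
    · simp
    · simp
  rw [h1]
  refine (Matrix.rank_submatrix_le _ _ _).trans ?_
  refine rank_lines_le hkp hF (fun x => Fin.cons 1 (a (e.symm x))) ?_ N ?_ ?_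
  · intro x h0
    have := congrFun h0 0
    rw [Fin.cons_zero, Pi.zero_apply] at this
    exact one_ne_zero this
  · intro x t
    obtain ⟨z, rfl⟩ := e.surjective x
    change MM F a (e.symm (e z))
      (e.symm (e z + t • (Fin.cons 1 (a (e.symm (e z))) : Fin (d + 1) → F))) = 1
    rw [Equiv.symm_apply_apply, hline, Equiv.symm_apply_apply, MM, if_pos]
    by_cases ht : t = 0
    · left
      rw [ht, add_zero, zero_smul, add_zero]
    · right
      refine ⟨?_, ?_⟩
      · intro h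
        exact ht (by simpa using h)
      · change z.2 + t • a z - z.2 = (z.1 + t - z.1) • a z
        rw [add_sub_cancel_left, add_sub_cancel_left]
  · intro x y hxy
    obtain ⟨z, rfl⟩ := e.surjective x
    obtain ⟨y, rfl⟩ := e.surjective y
    change MM F a (e.symm (e z)) (e.symm (e y)) = 0
    rw [Equiv.symm_apply_apply, Equiv.symm_apply_apply, MM, if_neg]
    simp only [Equiv.symm_apply_apply, hline] at hxy
    rintro (h | h)
    · refine hxy 0 ?_
      rw [h, add_zero, zero_smul, add_zero]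
    · refine hxy (y.1 - z.1) ?_
      congr 1
      refine Prod.ext ?_ ?_
      · exact (add_sub_cancel _ _).symm
      · change y.2 = z.2 + (y.1 - z.1) • a z
        rw [← h.2, add_sub_cancel]

theorem le_egirth_GG {F K : Type} [Field F] [AddCommGroup K] [Module F K] (a : F × K → K)
    (X : Finset (F × K)) (g : ℕ)
    (hsel : ∀ m < g - 3, ∀ (s : ZMod (m + 3) → Bool) (x : ZMod (m + 3) → F × K),
        Function.Injective x → x 0 ∈ X → ¬ Ori s a x) : (g : ℕ∞) ≤ (GG a X).egirth := by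
  rw [SimpleGraph.le_egirth]
  intro u w hw
  by_contra hcon
  rw [not_le, Nat.cast_lt] at hcon
  have h3 := hw.three_le_length
  obtain ⟨m, hm⟩ : ∃ m, w.length = m + 3 := ⟨w.length - 3, by omega⟩
  let x : ZMod (m + 3) → F × K := fun i => w.getVert i.val
  have hadj : ∀ i : ZMod (m + 3), (GG a X).Adj (x i) (x (i + 1)) := by
    intro i
    have hi : i.val < m + 3 := ZMod.val_lt i
    have h1 := w.adj_getVert_succ (i := i.val) (by omega)
    by_cases h2 : i.val + 1 < m + 3
    · have h4 : (i + 1).val = i.val + 1 := by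
        rw [ZMod.val_add, ZMod.val_one_eq_one_mod, Nat.mod_eq_of_lt (by omega : 1 < m + 3),
          Nat.mod_eq_of_lt h2]
      change (GG a X).Adj (w.getVert i.val) (w.getVert (i + 1).val)
      rw [h4]
      exact h1
    · have h5 : i.val + 1 = m + 3 := by omega
      have h4 : (i + 1).val = 0 := by
        rw [ZMod.val_add, ZMod.val_one_eq_one_mod, Nat.mod_eq_of_lt (by omega : 1 < m + 3), h5,
          Nat.mod_self]
      change (GG a X).Adj (w.getVert i.val) (w.getVert (i + 1).val)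
      rw [h4, SimpleGraph.Walk.getVert_zero]
      have h6 : w.getVert (m + 3) = u := by
        rw [← hm]
        exact w.getVert_length
      rw [h5, h6] at h1
      exact h1
  have hinj : Function.Injective x := by
    intro i j hij
    have hi : i.val < m + 3 := ZMod.val_lt i
    have hj : j.val < m + 3 := ZMod.val_lt j
    exact ZMod.val_injective _ (hw.getVert_injOn' (by
      change i.val ≤ w.length - 1
      omega) (by
      change j.val ≤ w.length - 1
      omega) hij)
  refine hsel m (by omega) (fun i => decide (Edge a (x i) (x (i + 1)))) x hinj (hadj 0).1 ?_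
  intro i
  by_cases h1 : Edge a (x i) (x (i + 1))
  · simp [h1]
  · simp [h1]
    exact (hadj i).2.2.resolve_left h1

/-- the numerical condition of the union bound -/
theorem num_cond (Q R R' n : ℕ) (hQ : 2 ≤ Q) (hR : R ≤ R') (hn : Q * Q * R' < n) :
    Q ^ R * (Q - 1) ^ n < Q ^ n := by
  have h1 : 2 * (Q - 1) ^ Q ≤ Q ^ Q := by
    obtain ⟨c, rfl⟩ : ∃ c, Q = c + 1 := ⟨Q - 1, by omega⟩
    rw [add_tsub_cancel_right]
    have h2 : c ^ (c + 1) + (c + 1) * c ^ c ≤ (c + 1) ^ (c + 1) := by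
      have h3 := add_pow c 1 (c + 1)
      rw [h3, sum_range_succ, sum_range_succ]
      simp only [one_pow, mul_one, Nat.choose_self, Nat.cast_id]
      have h4 : (c + 1).choose c = c + 1 := by rw [Nat.choose_succ_self_right]
      rw [h4]
      have h5 := Nat.zero_le (∑ x ∈ range c, c ^ x * (c + 1).choose x)
      nlinarith
    have h3 : c ^ (c + 1) = c * c ^ c := pow_succ' c c
    have h4 : 0 < c ^ c := Nat.pow_pos (by omega)
    nlinarith
  have h2 : Q ^ (Q * R') ≥ 1 := Nat.one_le_pow _ _ (by omega)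
  obtain ⟨c, hc, hc0⟩ : ∃ c, n = Q * Q * R' + c ∧ 0 < c := ⟨n - Q * Q * R', by omega, by omega⟩
  have h3 : Q ^ R ≤ 2 ^ (Q * R') := by
    calc Q ^ R ≤ Q ^ R' := Nat.pow_le_pow_right (by omega) hR
      _ ≤ (2 ^ Q) ^ R' := Nat.pow_le_pow_left Nat.lt_two_pow_self.le _
      _ = 2 ^ (Q * R') := (pow_mul _ _ _).symm
  have h4 : Q ^ R * (Q - 1) ^ (Q * Q * R') ≤ Q ^ (Q * Q * R') := by
    calc Q ^ R * (Q - 1) ^ (Q * Q * R') ≤ 2 ^ (Q * R') * (Q - 1) ^ (Q * Q * R') :=
          Nat.mul_le_mul_right _ h3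
      _ = (2 * (Q - 1) ^ Q) ^ (Q * R') := by
          rw [mul_pow, ← pow_mul, ← mul_assoc]
      _ ≤ (Q ^ Q) ^ (Q * R') := Nat.pow_le_pow_left h1 _
      _ = Q ^ (Q * Q * R') := by rw [← pow_mul, ← mul_assoc]
  have h5 : (Q - 1) ^ c < Q ^ c := Nat.pow_lt_pow_left (by omega) (by omega)
  rw [hc, pow_add, pow_add, ← mul_assoc]
  calc Q ^ R * (Q - 1) ^ (Q * Q * R') * (Q - 1) ^ c ≤ Q ^ (Q * Q * R') * (Q - 1) ^ c :=
        Nat.mul_le_mul_right _ h4
    _ < Q ^ (Q * Q * R') * Q ^ c := Nat.mul_lt_mul_of_pos_left h5 (Nat.pow_pos (by omega))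

/-- the main construction -/
theorem main_aux {p h d g m T : ℕ} [Fact p.Prime] (hgd : g ≤ d) (hkp : d + 1 ≤ p) {F K : Type}
    [Field F] [Fintype F] [CharP F p] [Algebra (ZMod p) F] (hF : Fintype.card F = p ^ h)
    (hq : 4 * g * 2 ^ g ≤ p ^ h) [Field K] [Fintype K] [Algebra (ZMod p) K]
    (hK : Fintype.card K = p ^ m) (hm : 1 ≤ m) (hhT : h = T * m)
    (hnum : 2 * (p ^ m * p ^ m * (p ^ (d + 1) - 1) ^ h) < (p ^ (d + 1)) ^ h) :
    ∃ (V : Type) (_ : Fintype V) (G : SimpleGraph V), (g : ℕ∞) ≤ G.egirth ∧ Wins G (p ^ m) ∧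
      ((p ^ m : ℕ) : ℕ∞) ≤ G.chromaticNumber ∧
      (∀ v, (G.neighborSet v).ncard < (p ^ m) ^ (T + 3)) ∧ G.Colorable ((p ^ m) ^ (T + 3)) := by
  have hp : 2 ≤ p := (Fact.out : p.Prime).two_le
  obtain ⟨a, X, hX, hdeg, hsel⟩ := exists_selection (F := F) (K := Fin d → F) g d hgd
    (by rw [Fintype.card_pi, prod_const, card_univ, Fintype.card_fin]) (by rw [hF]; exact hq)
  have hcard : Fintype.card (F × (Fin d → F)) = (p ^ (d + 1)) ^ h := by
    rw [Fintype.card_prod, Fintype.card_pi, prod_const, card_univ, Fintype.card_fin, hF,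
      ← pow_succ', ← pow_mul, ← pow_mul, mul_comm]
  have hr1 : (MM (ZMod p) a).rank ≤ (p ^ (d + 1) - 1) ^ h := by
    refine (rank_le_map (L := F) _).trans ?_
    rw [MM_map (algebraMap (ZMod p) F)]
    exact rank_MM hkp hF a
  have hr2 : (MM K a).rank ≤ (p ^ (d + 1) - 1) ^ h := by
    rw [← MM_map (algebraMap (ZMod p) K)]
    exact (rank_map_le _).trans hr1
  have hd : ∀ v ∈ X, MM K a v v = 1 := by
    intro v _
    rw [MM, if_pos (Or.inl rfl)]
  have hs : ∀ v ∈ X, ∀ u ∈ X, u ≠ v → MM K a v u ≠ 0 → (GG a X).Adj v u := by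
    intro v hv u hu huv h0
    rw [MM] at h0
    by_cases h1 : u = v ∨ Edge a v u
    · exact ⟨hv, hu, Or.inl (h1.resolve_left huv)⟩
    · rw [if_neg h1] at h0
      exact absurd rfl h0
  have hQ : 2 ≤ p ^ m := by
    calc 2 ≤ p := hp
      _ = p ^ 1 := (pow_one p).symm
      _ ≤ p ^ m := Nat.pow_le_pow_right (by omega) hm
  have hXn : p ^ m * p ^ m * (p ^ (d + 1) - 1) ^ h < X.card := by omega
  have hdg : ∀ v, Nat.card {u // (GG a X).Adj v u} ≤ 5 * Fintype.card F := by
    intro v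
    by_cases hv : v ∈ X
    · have h2 : Nat.card {u // (GG a X).Adj v u}
          ≤ ((univ.filter fun y => Edge a v y) ∪ univ.filter fun x => Edge a x v).card := by
        rw [← Fintype.card_coe, ← Nat.card_eq_fintype_card]
        refine Nat.card_le_card_of_injective (fun u => ⟨u.1, ?_⟩) ?_
        · rw [mem_union, mem_filter, mem_filter]
          rcases u.2.2.2 with h | h
          · exact Or.inl ⟨mem_univ _, h⟩
          · exact Or.inr ⟨mem_univ _, h⟩
        · intro u u' huu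
          have h3 := congrArg Subtype.val huu
          exact Subtype.ext h3
      have h3 := card_union_le (univ.filter fun y => Edge a v y)
        (univ.filter fun x => Edge a x v)
      have h4 := outdeg_le a v
      have h5 := hdeg v hv
      omega
    · have : IsEmpty {u // (GG a X).Adj v u} := ⟨fun u => hv u.2.1⟩
      rw [Nat.card_of_isEmpty]
      exact Nat.zero_le _
  have hbig : 5 * Fintype.card F + 1 ≤ (p ^ m) ^ (T + 3) := by
    rw [hF, hhT, pow_add, ← pow_mul, mul_comm m T]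
    have h2 : 2 ^ 3 ≤ (p ^ m) ^ 3 := Nat.pow_le_pow_left hQ 3
    have h3 : 1 ≤ p ^ (T * m) := Nat.one_le_pow _ _ (by omega)
    nlinarith
  refine ⟨F × (Fin d → F), inferInstance, GG a X, le_egirth_GG a X g hsel, ?_, ?_, ?_, ?_⟩
  · rw [← hK]
    refine wins_of_linear (GG a X) X (MM K a) hd hs ?_
    rw [hK]
    exact num_cond _ _ _ _ hQ hr2 hXn
  · rw [SimpleGraph.le_chromaticNumber_iff_colorable]
    intro c hc
    obtain ⟨col⟩ := hc
    by_contra hlt
    rw [not_le] at hlt
    have h1 : X.card = ∑ i : Fin c, (X.filter fun v => col v = i).card :=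
      card_eq_sum_card_fiberwise fun v _ => mem_coe.2 (mem_univ _)
    have h2 : ∀ i : Fin c, (X.filter fun v => col v = i).card ≤ (p ^ (d + 1) - 1) ^ h := by
      intro i
      refine le_trans ?_ hr2
      refine indep_card_le X (MM K a) hd _ (filter_subset _ _) ?_
      intro v hv u hu huv
      by_contra h0
      rw [mem_filter] at hv hu
      exact col.valid (hs v hv.1 u hu.1 huv h0) (hv.2.trans hu.2.symm)
    have h3 : X.card ≤ c * (p ^ (d + 1) - 1) ^ h := by
      rw [h1]
      refine (sum_le_sum fun i _ => h2 i).trans ?_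
      rw [sum_const, card_univ, Fintype.card_fin, smul_eq_mul]
    have h4 : c * (p ^ (d + 1) - 1) ^ h ≤ p ^ m * p ^ m * (p ^ (d + 1) - 1) ^ h := by
      refine Nat.mul_le_mul_right _ ?_
      nlinarith
    omega
  · intro v
    have h1 : ((GG a X).neighborSet v).ncard = Nat.card {u // (GG a X).Adj v u} :=
      (Nat.card_coe_set_eq _).symm
    have h2 := hdg v
    omega
  · exact (colorable_of_degree _ _ hdg).mono hbig

/-- large girth, large chromatic number, polynomial hat guessing number -/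
theorem large_girth (g : ℕ) : ∃ T : ℕ, ∀ N : ℕ,
    ∃ (V : Type) (_ : Fintype V) (G : SimpleGraph V) (q : ℕ), (g : ℕ∞) ≤ G.egirth ∧
      (N : ℕ∞) ≤ G.chromaticNumber ∧ N ≤ q ∧ (∀ v, (G.neighborSet v).ncard < q ^ T) ∧
      G.Colorable (q ^ T) ∧ Wins G q := by
  obtain ⟨p, hgp, hp⟩ := Nat.exists_infinite_primes (g + 1)
  have : Fact p.Prime := ⟨hp⟩
  have hp2 : 2 ≤ p := hp.two_le
  obtain ⟨u, hu⟩ : ∃ u, u = p ^ (g + 1) := ⟨_, rfl⟩
  have hu2 : 2 ≤ u := by
    rw [hu]
    calc 2 ≤ p := hp2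
      _ = p ^ 1 := (pow_one p).symm
      _ ≤ p ^ (g + 1) := Nat.pow_le_pow_right (by omega) (by omega)
  obtain ⟨T, hT⟩ : ∃ T, T = 2 * p ^ 2 * (u - 1) := ⟨_, rfl⟩
  have hT1 : 1 ≤ T := by
    rw [hT]
    have : 0 < 2 * p ^ 2 * (u - 1) := by
      refine Nat.mul_pos (by positivity) (by omega)
    omega
  -- Bernoulli
  have hB : (2 * p ^ 2 + 1) * (u - 1) ^ T ≤ u ^ T := by
    obtain ⟨c, hc⟩ : ∃ c, u = c + 1 := ⟨u - 1, by omega⟩
    have hc1 : 1 ≤ c := by omega
    rw [hc, add_tsub_cancel_right] at hT ⊢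
    obtain ⟨t, ht⟩ : ∃ t, T = t + 1 := ⟨T - 1, by omega⟩
    have h1 : c ^ (t + 1) + (t + 1) * c ^ t ≤ (c + 1) ^ (t + 1) := by
      have h3 := add_pow c 1 (t + 1)
      rw [h3, sum_range_succ, sum_range_succ]
      simp only [one_pow, mul_one, Nat.choose_self, Nat.cast_id]
      rw [Nat.choose_succ_self_right]
      have h5 := Nat.zero_le (∑ x ∈ range t, c ^ x * (t + 1).choose x)
      nlinarith
    rw [ht] at hT ⊢
    calc (2 * p ^ 2 + 1) * c ^ (t + 1) = c ^ (t + 1) + (2 * p ^ 2 * c) * c ^ t := by ring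
      _ = c ^ (t + 1) + (t + 1) * c ^ t := by rw [← hT]
      _ ≤ _ := h1
  refine ⟨T + 3, fun N => ?_⟩
  obtain ⟨m, hm⟩ : ∃ m, m = N + 4 * g * 2 ^ g + 1 := ⟨_, rfl⟩
  have hm1 : 1 ≤ m := by omega
  obtain ⟨h, hh⟩ : ∃ h, h = T * m := ⟨_, rfl⟩
  have hmh : m ≤ h := by
    rw [hh]
    exact Nat.le_mul_of_pos_left _ hT1
  have hpm : ∀ r, r < p ^ r := fun r => Nat.lt_pow_self hp2
  have hnum : 2 * (p ^ m * p ^ m * (p ^ (g + 1) - 1) ^ h) < (p ^ (g + 1)) ^ h := by
    rw [← hu, hh, pow_mul, pow_mul]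
    have h1 : ((2 * p ^ 2 + 1) * (u - 1) ^ T) ^ m ≤ (u ^ T) ^ m := Nat.pow_le_pow_left hB m
    refine lt_of_lt_of_le ?_ h1
    rw [mul_pow]
    have h2 : 0 < ((u - 1) ^ T) ^ m := Nat.pow_pos (Nat.pow_pos (by omega))
    rw [← mul_assoc]
    refine Nat.mul_lt_mul_of_pos_right ?_ h2
    have h3 : 2 * (p ^ m * p ^ m) ≤ (2 * p ^ 2) ^ m := by
      rw [mul_pow, ← pow_mul, ← pow_add, mul_comm 2 m, mul_two]
      refine Nat.mul_le_mul_right _ ?_
      calc 2 = 2 ^ 1 := (pow_one 2).symm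
        _ ≤ 2 ^ m := Nat.pow_le_pow_right (by omega) hm1
    refine lt_of_le_of_lt h3 ?_
    exact Nat.pow_lt_pow_left (Nat.lt_succ_self _) (by omega)
  have hFc : Nat.card (GaloisField p h) = p ^ h := GaloisField.card p h (by omega)
  have hKc : Nat.card (GaloisField p m) = p ^ m := GaloisField.card p m (by omega)
  have : Finite (GaloisField p h) := Nat.finite_of_card_ne_zero (by
    rw [hFc]
    positivity)
  have : Finite (GaloisField p m) := Nat.finite_of_card_ne_zero (by
    rw [hKc]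
    positivity)
  have iF : Fintype (GaloisField p h) := Fintype.ofFinite _
  have iK : Fintype (GaloisField p m) := Fintype.ofFinite _
  rw [Nat.card_eq_fintype_card] at hFc hKc
  obtain ⟨V, iV, G, h1, h2, h3, h4, h5⟩ := main_aux (p := p) (h := h) (d := g) (g := g) (m := m)
    (T := T) le_rfl hgp (F := GaloisField p h) (K := GaloisField p m) hFc (by
      have := hpm h
      omega) hKc hm1 hh hnum
  refine ⟨V, iV, G, p ^ m, h1, le_trans ?_ h3, ?_, h4, h5, h2⟩
  · have := hpm m
    exact_mod_cast (by omega : N ≤ p ^ m)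
  · have := hpm m
    omega

end Pool.Agent.Lib.MP_1818ed_co.HatG
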